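import Pool.Agent.helper60.XP.SpecX

/-!
# Project xp: (MP_af9036_an), module EN2M
-/

set_option autoImplicit false

open Complex Metric Set Filter Topology MeasureTheory
open V3S (UF)
open XP

noncomputable section

namespace XPX

theorem EN2M (hC2Q : XPE.C2Q_stmt) (hC2V : XPE.C2V_stmt) : EN2M_stmt := by
  intro v a₀ a₁ θ c hv hv0 hv1 hne hθ hc hint
  have hB : Differentiable ℂ (fun x : ℂ => a₀ + a₁ * x) := by fun_prop
  have hdv : Differentiable ℂ (deriv v) := by
    have h1 : ContDiff ℂ 2 v := hv.contDiff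
    have h2 : ContDiff ℂ 1 (deriv v) := by
      have h3 : ContDiff ℂ (1 + 1) v := by
        have : (1 : WithTop ℕ∞) + 1 = 2 := by norm_num
        rw [this]
        exact h1
      exact (contDiff_succ_iff_deriv.mp h3).2.2
    exact h2.differentiable (by norm_num)
  have hq : Differentiable ℂ (fun x : ℂ => v x * a₁ + 2 * deriv v x * (a₀ + a₁ * x)) := by
    fun_prop
  have hex : ∃ x : ℂ, (fun x : ℂ => a₀ + a₁ * x) x ≠ 0 := by
    rcases hne with h | h
    · exact ⟨0, by simpa using h⟩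
    · by_cases h0 : a₀ = 0
      · exact ⟨1, by simpa [h0] using h⟩
      · exact ⟨0, by simpa using h0⟩
  obtain ⟨τ, hτ⟩ := hC2Q θ (fun x => a₀ + a₁ * x)
    (fun x => v x * a₁ + 2 * deriv v x * (a₀ + a₁ * x)) c hθ hc hB hq hex hint
  exact hC2V v a₀ a₁ τ hv hne hv0 hv1 hτ

end XPX
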